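import Mathlib
import Pool.Agent.Work.MP_db9399_lh_helper99.NUM

/-! THEOREM OUT, block NRM: the numbers. -/

set_option autoImplicit false

namespace Pool.Agent.Work.MP_db9399_ot.helper99

open Pool.Agent.Work.MP_db9399_lh.helper99 (one_type)

/-- the classes: the number of rounds -/
theorem one_class {m : ℕ} {D : ℝ} (hm : 3 ≤ m) (hD : 4 * (m : ℝ) * (2 * m + 1) ^ 2 ≤ D)
    (hD0 : 0 < D) :
    ∃ w : ℕ, ((m : ℝ) - 1) * w ≤ (1 - 1 / (2 * m + 1)) * (D / (2 * m + 1)) ∧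
      (1 - 2 / (2 * m + 1)) * (D / (2 * m + 1)) ≤ ((m : ℝ) - 1) * w ∧
      (2 * (m : ℝ) + 1) * m * w ≤ (1 + 1 / m) * D ∧
      (1 + 1 / (2 * (2 * m + 1))) * D ≤ (2 * (m : ℝ) + 1) * m * w := by
  have hm3 : (3 : ℝ) ≤ m := by exact_mod_cast hm
  have hmN : 0 ≤ (m : ℝ) * (2 * m + 1) ^ 2 := by positivity
  obtain ⟨N, hN⟩ : ∃ N : ℝ, N = 2 * (m : ℝ) + 1 := ⟨_, rfl⟩
  rw [← hN]
  rw [← hN] at hD hmN
  have hN0 : 0 < N := by linarith
  have hm1 : 0 < (m : ℝ) - 1 := by linarith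
  have hm0 : 0 < (m : ℝ) := by linarith
  obtain ⟨q, hq⟩ : ∃ q : ℝ, q = D / N := ⟨_, rfl⟩
  rw [← hq]
  have hq0 : 0 < q := by rw [hq]; positivity
  have hqN : q * N = D := by rw [hq]; field_simp
  have hN1 : 1 / N ≤ 1 := by
    rw [div_le_one hN0]; linarith
  have hN1' : (1 - 1 / N) * N = N - 1 := by field_simp
  have hx0 : 0 ≤ (1 - 1 / N) * q / ((m : ℝ) - 1) := by
    apply div_nonneg _ hm1.le
    apply mul_nonneg _ hq0.le
    linarith
  obtain ⟨w, hw⟩ : ∃ w : ℕ, w = ⌊(1 - 1 / N) * q / ((m : ℝ) - 1)⌋₊ := ⟨_, rfl⟩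
  have w_le : ((m : ℝ) - 1) * w ≤ (1 - 1 / N) * q := by
    have := Nat.floor_le hx0
    rw [← hw, le_div_iff₀ hm1] at this
    linarith
  have w_ge : (1 - 1 / N) * q - ((m : ℝ) - 1) ≤ ((m : ℝ) - 1) * w := by
    have := (Nat.lt_floor_add_one ((1 - 1 / N) * q / ((m : ℝ) - 1))).le
    rw [← hw, div_le_iff₀ hm1] at this
    linarith
  refine ⟨w, w_le, ?_, ?_, ?_⟩
  · refine le_trans ?_ w_ge
    have h1 : ((m : ℝ) - 1) * N ≤ q := by
      rw [hq, le_div_iff₀ hN0]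
      nlinarith
    have h2 : (m : ℝ) - 1 ≤ q / N := by rw [le_div_iff₀ hN0]; exact h1
    have h3 : (1 - 1 / N) * q = (1 - 2 / N) * q + q / N := by ring
    linarith
  · have h1 : N * (((m : ℝ) - 1) * w) ≤ (N - 1) * q := by
      have := mul_le_mul_of_nonneg_left w_le hN0.le
      calc N * (((m : ℝ) - 1) * w) ≤ N * ((1 - 1 / N) * q) := this
        _ = ((1 - 1 / N) * N) * q := by ring
        _ = (N - 1) * q := by rw [hN1']
    have h2 : ((m : ℝ) - 1) * (N * m * w) ≤ m * ((N - 1) * q) := by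
      have := mul_le_mul_of_nonneg_left h1 hm0.le
      linarith
    have h3 : m * ((N - 1) * q) ≤ ((m : ℝ) - 1) * ((1 + 1 / m) * D) := by
      rw [← hqN]
      have h4 : (m : ℝ) * (N - 1) ≤ ((m : ℝ) - 1) * (1 + 1 / m) * N := by
        have h5 : ((m : ℝ) - 1) * (1 + 1 / m) * N = (((m : ℝ) - 1) * (m + 1) * N) / m := by
          field_simp
        rw [h5, le_div_iff₀ hm0, hN]
        nlinarith
      have := mul_le_mul_of_nonneg_right h4 hq0.le
      linarith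
    exact le_of_mul_le_mul_left (h2.trans h3) hm1
  · have h1 : (N - 1) * q - N * ((m : ℝ) - 1) ≤ N * (((m : ℝ) - 1) * w) := by
      have := mul_le_mul_of_nonneg_left w_ge hN0.le
      calc (N - 1) * q - N * ((m : ℝ) - 1) = ((1 - 1 / N) * N) * q - N * ((m : ℝ) - 1) := by
            rw [hN1']
        _ = N * ((1 - 1 / N) * q - ((m : ℝ) - 1)) := by ring
        _ ≤ _ := this
    have h2 : m * ((N - 1) * q) - m * (N * ((m : ℝ) - 1)) ≤ ((m : ℝ) - 1) * (N * m * w) := by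
      have := mul_le_mul_of_nonneg_left h1 hm0.le
      linarith
    have h3 : ((m : ℝ) - 1) * ((1 + 1 / (2 * N)) * D) ≤
        m * ((N - 1) * q) - m * (N * ((m : ℝ) - 1)) := by
      have h4 : ((m : ℝ) - 1) * ((1 + 1 / (2 * N)) * D) = ((m : ℝ) - 1) * (N + 1 / 2) * q := by
        rw [← hqN]; field_simp
      rw [h4]
      have h5 : m * (N * ((m : ℝ) - 1)) ≤ (m * (N - 1) - ((m : ℝ) - 1) * (N + 1 / 2)) * q := by
        have h6 : m * (N - 1) - ((m : ℝ) - 1) * (N + 1 / 2) = (m + 3) / 2 := by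
          rw [hN]; ring
        rw [h6]
        have h7 : 4 * (m * N) ≤ q := by
          rw [hq, le_div_iff₀ hN0]
          linarith
        have h8 : (m + 3) / 2 * (4 * (m * N)) ≤ (m + 3) / 2 * q :=
          mul_le_mul_of_nonneg_left h7 (by linarith)
        have h9 : 0 ≤ (m : ℝ) * N := by positivity
        nlinarith only [h8, h9, hm3]
      linarith
    exact le_of_mul_le_mul_left (h3.trans h2) hm1

/-- the numbers `w0`, `wq`, `wc`, `W1`; `f`, `q`: the proportions `f0`, `fq` -/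
theorem numbers {κ δe f q ε : ℝ} {n l m r S ν K1 : ℕ} (hn : 0 < n) (hκ : 0 < κ) (hδe : 0 < δe)
    (hl1 : 6 / κ ≤ 2 * (l : ℝ) + 1) (hl : 3 ≤ l) (hν : ν = 3 * (K1 + 1) ^ 2)
    (hq : q = 2 / (3 * (2 * (l : ℝ) + 1)) * (((S : ℝ) + 1 - ν) / ((S : ℝ) + 1)))
    (hf : f = 1 - 2 / (3 * (2 * (l : ℝ) + 1)) - 1 / ((2 * (l : ℝ) + 1) * ((S : ℝ) + 1)) - 2 * q)
    (hS : ν ≤ S) (hS1 : 2 * ((K1 : ℝ) + 1) ^ 2 + 1 ≤ δe / 2 * (S + 1))
    (hS2 : 24 * (2 * ((K1 : ℝ) + 1) ^ 2 + 1) ≤ S + 1)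
    (hm : 100 * (n + 1) * (K1 + 1) ^ 2 * ((2 * l + 1) * (S + 1)) ≤ m) (hε0 : 0 ≤ ε)
    (hε : 100 * ((n : ℝ) + 1) * ((K1 : ℝ) + 1) ^ 2 * ((2 * l + 1) * (S + 1)) * ε ≤ 1) :
    ∃ d0 : ℕ, ∀ d D : ℕ, d0 ≤ d → (1 - ε) * d ≤ ((n : ℝ) + 1) * D →
      ((n : ℝ) + 1) * D ≤ (1 + ε) * d → ∃ w0 wq wc W1 : ℕ,
      ((m : ℝ) - 1) * w0 ≤ (1 - 1 / (2 * m + 1)) * (f * D / (2 * m + 1)) ∧
      ((m : ℝ) - 1) * wq ≤ (1 - 1 / (2 * m + 1)) * (q * D / (2 * m + 1)) ∧
      ((m : ℝ) - 1) * wc ≤ (1 - 1 / (2 * m + 1)) * ((D : ℝ) / (2 * m + 1)) ∧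
      (1 - 2 / (2 * m + 1)) * (f * D / (2 * m + 1)) ≤ ((m : ℝ) - 1) * w0 ∧
      (1 - 2 / (2 * m + 1)) * (q * D / (2 * m + 1)) ≤ ((m : ℝ) - 1) * wq ∧
      (1 - 2 / (2 * m + 1)) * ((D : ℝ) / (2 * m + 1)) ≤ ((m : ℝ) - 1) * wc ∧
      (2 * (m : ℝ) + 1) * m * (w0 + 2 * wq) ≤ (1 - 1 / (2 * (2 * l + 1))) * D ∧
      (1 - 1 / (2 * l + 1)) * D ≤ (2 * (m : ℝ) + 1) * m * (w0 + 2 * wq) ∧
      (2 * (m : ℝ) + 1) * m * wc ≤ (1 + 3 / (2 * m + 1)) * D ∧
      (1 + 1 / (2 * (2 * m + 1))) * D ≤ (2 * (m : ℝ) + 1) * m * wc ∧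
      (2 * m + 1) * (m * ((w0 + n * wc) + 3 * wq)) + W1 = d + 2 ∧
      (W1 : ℝ) ≤ D / (12 * (2 * l + 1)) ∧ (W1 : ℝ) ≤ δe * D ∧
      ((K1 : ℝ) + 1) ^ 2 * ((D : ℝ) / ((2 * l + 1) * (S + 1)) + 8 * (d : ℝ) / (2 * m + 1) + 1) ≤
        W1 ∧
      (2 * (m : ℝ) + 1) * m * ((w0 + n * wc) + 3 * wq) + 3 * ((2 * (m : ℝ) + 1) * m) ≤ d ∧
      (1 - κ) * d + (2 * m + 1) * (r + 1) ≤ (2 * (m : ℝ) + 1) * m * (w0 + n * wc) := by
  have hl3 : (3 : ℝ) ≤ l := by exact_mod_cast hl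
  have hn1 : (1 : ℝ) ≤ n := by exact_mod_cast hn
  obtain ⟨L, hL⟩ : ∃ L : ℝ, L = 2 * (l : ℝ) + 1 := ⟨_, rfl⟩
  obtain ⟨N, hN⟩ : ∃ N : ℝ, N = 2 * (m : ℝ) + 1 := ⟨_, rfl⟩
  obtain ⟨Z, hZ⟩ : ∃ Z : ℝ, Z = (S : ℝ) + 1 := ⟨_, rfl⟩
  obtain ⟨C, hC⟩ : ∃ C : ℝ, C = ((K1 : ℝ) + 1) ^ 2 := ⟨_, rfl⟩
  obtain ⟨n1, hn'⟩ : ∃ n1 : ℝ, n1 = (n : ℝ) + 1 := ⟨_, rfl⟩
  rw [← hL] at hl1 hq hf hε
  rw [← hZ] at hq hf hS1 hS2 hε
  rw [← hC] at hS1 hS2 hε
  rw [← hn'] at hε
  have hmr : 100 * n1 * C * (L * Z) ≤ m := by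
    have : ((100 * (n + 1) * (K1 + 1) ^ 2 * ((2 * l + 1) * (S + 1)) : ℕ) : ℝ) ≤ m := by
      exact_mod_cast hm
    push_cast at this
    rw [hL, hZ, hC, hn']
    exact this
  have hνr : (ν : ℝ) = 3 * C := by rw [hν, hC]; push_cast; ring
  have hSr : (ν : ℝ) ≤ S := by exact_mod_cast hS
  have hC1 : 1 ≤ C := by
    rw [hC]
    have : (0 : ℝ) ≤ K1 := Nat.cast_nonneg _
    nlinarith only [this]
  have hn2 : 2 ≤ n1 := by linarith only [hn', hn1]
  have hL7 : 7 ≤ L := by linarith only [hL, hl3]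
  have hL0 : 0 < L := by linarith only [hL7]
  have hZ72 : 72 ≤ Z := by linarith only [hS2, hC1]
  have hZ0 : 0 < Z := by linarith only [hZ72]
  have hLZ : 504 ≤ L * Z := by nlinarith only [hL7, hZ72]
  have hLZ0 : 0 < L * Z := by positivity
  have hnC : 2 ≤ n1 * C := by nlinarith only [hn2, hC1]
  have hX : 100800 ≤ 100 * n1 * C * (L * Z) := by nlinarith only [hnC, hLZ]
  have hm0 : 0 < (m : ℝ) := by linarith only [hmr, hX]
  have hm3r : (3 : ℝ) ≤ m := by linarith only [hmr, hX]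
  have hm3 : 3 ≤ m := by exact_mod_cast hm3r
  have hN0 : 0 < N := by linarith only [hN, hm0]
  -- ε
  have hεs : ε * 100800 ≤ 1 := by
    have := mul_le_mul_of_nonneg_right hX hε0
    linarith only [this, hε]
  have hε1 : ε ≤ 1 / 2 := by linarith only [hεs]
  -- the proportions
  have hqv : q = 2 / (3 * L) - 2 * C / (L * Z) := by
    rw [hq, hνr, hZ]
    have : (S : ℝ) + 1 ≠ 0 := by rw [← hZ]; exact hZ0.ne'
    field_simp
  have hq0 : 0 < q := by
    rw [hq]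
    apply mul_pos (by positivity)
    apply div_pos _ hZ0
    linarith only [hZ, hSr]
  have hqle : q ≤ 2 / (3 * L) := by
    rw [hqv]
    have : 0 ≤ 2 * C / (L * Z) := by positivity
    linarith only [this]
  have hsum3 : f + 3 * q = 1 - (2 * C + 1) / (L * Z) := by
    rw [hf, hqv]
    field_simp
    ring
  have hsum2 : f + 2 * q = 1 - 2 / (3 * L) - 1 / (L * Z) := by
    rw [hf]; ring
  have hLZs : 1 / (L * Z) ≤ 1 / (72 * L) := by
    apply one_div_le_one_div_of_le (by positivity)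
    nlinarith only [hL0, hZ72]
  have hflow : 1 - 3 / L ≤ f := by
    have h1 : 3 / L = 2 / (3 * L) + 1 / L + 2 * (2 / (3 * L)) := by
      field_simp; ring
    have h2 : 1 / (72 * L) ≤ 1 / L := one_div_le_one_div_of_le hL0 (by linarith only [hL0])
    linarith only [h1, h2, hLZs, hqle, hf]
  have hf0 : 0 < f := by
    have : 3 / L ≤ 3 / 7 := by
      rw [div_le_div_iff₀ hL0 (by norm_num)]; linarith only [hL7]
    linarith only [this, hflow]
  have h3κ : 3 / L ≤ κ / 2 := by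
    rw [div_le_iff₀ hL0]
    rw [div_le_iff₀ hκ] at hl1
    linarith only [hl1]
  have hεκ : ε ≤ κ / 4 := by
    -- 6 ≤ κ L, 100 n1 C L Z ε ≤ 1
    have h1 : 6 ≤ κ * L := by
      rw [div_le_iff₀ hκ] at hl1; linarith only [hl1]
    have h2 : 100 * L ≤ 100 * n1 * C * (L * Z) := by
      have : (1 : ℝ) ≤ n1 * C * Z := by nlinarith only [hnC, hZ72]
      nlinarith only [this, hL0]
    have h3 : 100 * L * ε ≤ 1 := (mul_le_mul_of_nonneg_right h2 hε0).trans hε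
    have h4 : L * (100 * ε) ≤ L * (κ / 6) := by nlinarith only [h1, h3]
    have h5 := le_of_mul_le_mul_left h4 hL0
    linarith only [h5, hκ]
  obtain ⟨T, hT⟩ : ∃ T : ℝ, T = (2 * (m : ℝ) + 1) * m := ⟨_, rfl⟩
  have hT0 : 0 < T := by rw [hT]; positivity
  obtain ⟨d1, hd1⟩ := exists_nat_ge (2 * n1 * (1 + m * N ^ 2 / f + m * N ^ 2 / q +
    4 * m * N ^ 2 + 4 * (T + N * (r + 1)) / κ +
    12 * L * (3 * T) + (4 * T + 2) * (48 * L) + (4 * T + 2) * (2 / δe) +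
    L * Z * (2 * C + 3 * T)))
  refine ⟨d1, fun d D hd hD1 hD2 => ?_⟩
  rw [← hn'] at hD1 hD2
  have hdd : (0 : ℝ) ≤ d := Nat.cast_nonneg _
  have hDn : (0 : ℝ) ≤ D := Nat.cast_nonneg _
  have hd2D : (d : ℝ) ≤ 2 * n1 * D := by nlinarith only [hD1, hε1, hdd]
  have hDd : (D : ℝ) ≤ d := by
    have h1 : (1 + ε) * (d : ℝ) ≤ 2 * d := mul_le_mul_of_nonneg_right (by linarith only [hε1]) hdd
    have h2 : 2 * (D : ℝ) ≤ n1 * D := mul_le_mul_of_nonneg_right hn2 hDn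
    linarith only [h1, h2, hD2]
  have hdr : 1 + m * N ^ 2 / f + m * N ^ 2 / q +
    4 * m * N ^ 2 + 4 * (T + N * (r + 1)) / κ +
    12 * L * (3 * T) + (4 * T + 2) * (48 * L) + (4 * T + 2) * (2 / δe) +
    L * Z * (2 * C + 3 * T) ≤ (D : ℝ) := by
    have h1 : (d1 : ℝ) ≤ d := by exact_mod_cast hd
    have h2 := (hd1.trans h1).trans hd2D
    exact le_of_mul_le_mul_left h2 (by linarith only [hn2])
  have p1 : 0 ≤ m * N ^ 2 / f := by positivity
  have p2 : 0 ≤ m * N ^ 2 / q := by positivity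
  have p3 : 0 ≤ 4 * (T + N * (r + 1)) / κ := by positivity
  have p4 : 0 ≤ 12 * L * (3 * T) := by positivity
  have p5 : 0 ≤ (4 * T + 2) * (48 * L) := by positivity
  have p6 : 0 ≤ (4 * T + 2) * (2 / δe) := by positivity
  have p7 : 0 ≤ L * Z * (2 * C + 3 * T) := by positivity
  have p8 : 0 ≤ 4 * m * N ^ 2 := by positivity
  have hd0 : 0 < (D : ℝ) := by linarith only [hdr, p1, p2, p3, p4, p5, p6, p7, p8]
  have r1 : m * N ^ 2 ≤ f * D := by
    have : m * N ^ 2 / f ≤ D := by linarith only [hdr, p1, p2, p3, p4, p5, p6, p7, p8]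
    rw [div_le_iff₀ hf0] at this
    linarith only [this]
  have r2 : m * N ^ 2 ≤ q * D := by
    have : m * N ^ 2 / q ≤ D := by linarith only [hdr, p1, p2, p3, p4, p5, p6, p7, p8]
    rw [div_le_iff₀ hq0] at this
    linarith only [this]
  have r0 : 4 * m * N ^ 2 ≤ D := by linarith only [hdr, p1, p2, p3, p4, p5, p6, p7, p8]
  have r3 : T + N * (r + 1) ≤ κ / 4 * D := by
    have : 4 * (T + N * (r + 1)) / κ ≤ D := by
      linarith only [hdr, p1, p2, p3, p4, p5, p6, p7, p8]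
    rw [div_le_iff₀ hκ] at this
    linarith only [this]
  have r4 : 3 * T ≤ D / (12 * L) := by
    rw [le_div_iff₀ (by positivity)]
    linarith only [hdr, p1, p2, p3, p4, p5, p6, p7, p8]
  have r5 : 4 * T + 2 ≤ D / (48 * L) := by
    rw [le_div_iff₀ (by positivity)]
    linarith only [hdr, p1, p2, p3, p4, p5, p6, p7, p8]
  have r6 : 4 * T + 2 ≤ δe / 2 * D := by
    have h1 : (4 * T + 2) * (2 / δe) ≤ D := by
      linarith only [hdr, p1, p2, p3, p4, p5, p6, p7, p8]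
    rw [← mul_div_assoc, div_le_iff₀ hδe] at h1
    linarith only [h1]
  have r7 : 2 * C + 3 * T ≤ D / (L * Z) := by
    rw [le_div_iff₀ hLZ0]
    linarith only [hdr, p1, p2, p3, p4, p5, p6, p7, p8]
  obtain ⟨w0, u1, u2, u3, u4⟩ := one_type (m := m) (f := f) (D := (D : ℝ)) hm3 hf0
    (by rw [← hN]; exact r1) hd0
  obtain ⟨wq, v1, v2, v3, v4⟩ := one_type (m := m) (f := q) (D := (D : ℝ)) hm3 hq0
    (by rw [← hN]; exact r2) hd0
  obtain ⟨wc, z1, z2, z3, z4⟩ := one_class (m := m) (D := (D : ℝ)) hm3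
    (by rw [← hN]; exact r0) hd0
  rw [← hT] at u3 u4 v3 v4 z3 z4
  -- small quantities, in units of D / (L Z)
  obtain ⟨E, hE⟩ : ∃ E : ℝ, E = (D : ℝ) / (L * Z) := ⟨_, rfl⟩
  have hE0 : 0 < E := by rw [hE]; positivity
  have hED : E * (L * Z) = D := by rw [hE]; field_simp
  -- n1 D / m ≤ E / 100 / C
  have hCm : C * (n1 * D / m) ≤ E / 100 := by
    rw [hE, ← mul_div_assoc, div_div, div_le_div_iff₀ hm0 (by positivity)]
    have := mul_le_mul_of_nonneg_right hmr hd0.le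
    linarith only [this]
  have hnm0 : 0 ≤ n1 * D / m := by positivity
  have hnm : n1 * D / m ≤ E / 100 := by
    have := mul_le_mul_of_nonneg_right hC1 hnm0
    linarith only [this, hCm]
  -- 2 ε n1 D ≤ E / 50
  have hεD : 2 * ε * n1 * D ≤ E / 50 := by
    rw [← hED]
    have h1 : n1 * (L * Z) * ε * 100 ≤ 1 := by
      have h2 : n1 * (L * Z) * ε * 100 ≤ 100 * n1 * C * (L * Z) * ε := by
        have h3 : 0 ≤ n1 * (L * Z) * ε * 100 := by positivity
        nlinarith only [h3, hC1]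
      exact h2.trans hε
    nlinarith only [h1, hE0]
  have hεD' : n1 * D ≤ d + E / 50 := by
    have h1 : ε * (d : ℝ) ≤ ε * (2 * n1 * D) := mul_le_mul_of_nonneg_left hd2D hε0
    linarith only [h1, hεD, hD2]
  have hεD'' : (d : ℝ) ≤ n1 * D + E / 50 := by
    have h1 : ε * (d : ℝ) ≤ ε * (2 * n1 * D) := mul_le_mul_of_nonneg_left hd2D hε0
    linarith only [h1, hεD, hD1]
  have hM0D : (2 * C + 1) / (L * Z) * D = 2 * (C * E) + E := by
    rw [hE]; ring
  have hCE : E ≤ C * E := by nlinarith only [hC1, hE0]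
  have hnr : (n : ℝ) = n1 - 1 := by linarith only [hn']
  have t3 : T * ((w0 + n * wc) + 3 * wq) = T * w0 + 3 * (T * wq) + n * (T * wc) := by ring
  have t2 : T * (w0 + 2 * wq) = T * w0 + 2 * (T * wq) := by ring
  have hm1' : 0 ≤ 1 / (m : ℝ) := by positivity
  -- upper bound of the total number
  have s3 : T * ((w0 + n * wc) + 3 * wq) ≤ d - (2 * (C * E) + E) + 3 * E / 100 := by
    have h1 : T * ((w0 + n * wc) + 3 * wq) ≤
        (1 + 1 / m) * ((n1 - (2 * C + 1) / (L * Z)) * D) := by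
      have h2 : (1 + 1 / (m : ℝ)) * ((n1 - (2 * C + 1) / (L * Z)) * D) =
        (1 + 1 / m) * (f * D) + 3 * ((1 + 1 / m) * (q * D)) + n * ((1 + 1 / m) * D) := by
        have h3 : n1 - (2 * C + 1) / (L * Z) = f + 3 * q + n := by
          rw [hsum3, hnr]; ring
        rw [h3]; ring
      rw [t3, h2]
      have h4 : n * (T * wc) ≤ n * ((1 + 1 / m) * D) :=
        mul_le_mul_of_nonneg_left z3 (Nat.cast_nonneg _)
      linarith only [u3, v3, h4]
    refine h1.trans ?_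
    have h2 : (1 + 1 / (m : ℝ)) * ((n1 - (2 * C + 1) / (L * Z)) * D) =
        n1 * D + n1 * D / m - (2 * C + 1) / (L * Z) * D - 1 / m * ((2 * C + 1) / (L * Z) * D) := by
      ring
    rw [h2, hM0D]
    have h3 : 0 ≤ 1 / (m : ℝ) * (2 * (C * E) + E) := by positivity
    linarith only [h3, hnm, hεD']
  -- lower bound
  have s4 : d - (2 * (C * E) + E) - E / 50 - 4 * T ≤ T * ((w0 + n * wc) + 3 * wq) := by
    have h2 : n1 * D - (2 * (C * E) + E) = f * D + 3 * (q * D) + n * D := by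
      rw [← hM0D]
      have h3 : f * D + 3 * (q * D) = (f + 3 * q) * D := by ring
      rw [h3, hsum3, hnr]; ring
    have h4 : n * (D : ℝ) ≤ n * (T * wc) := by
      refine mul_le_mul_of_nonneg_left ?_ (Nat.cast_nonneg _)
      refine le_trans ?_ z4
      have h5 : 0 ≤ 1 / (2 * (2 * (m : ℝ) + 1)) := by positivity
      nlinarith only [h5, hd0]
    rw [t3]
    linarith only [h2, h4, u4, v4, hεD'']
  have hle : (2 * m + 1) * (m * ((w0 + n * wc) + 3 * wq)) ≤ d + 2 := by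
    have h1 : (((2 * m + 1) * (m * ((w0 + n * wc) + 3 * wq)) : ℕ) : ℝ) ≤ ((d + 2 : ℕ) : ℝ) := by
      push_cast
      have h2 : (2 * (m : ℝ) + 1) * (m * ((w0 + n * wc) + 3 * wq)) =
          T * ((w0 + n * wc) + 3 * wq) := by
        rw [hT]; ring
      rw [h2]
      linarith only [s3, hE0, hCE]
    exact_mod_cast h1
  obtain ⟨W1, hW1⟩ := Nat.exists_eq_add_of_le hle
  have hW1r : (W1 : ℝ) = d + 2 - T * ((w0 + n * wc) + 3 * wq) := by
    have h1 : ((d + 2 : ℕ) : ℝ) =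
        (((2 * m + 1) * (m * ((w0 + n * wc) + 3 * wq)) + W1 : ℕ) : ℝ) := by
      rw [hW1]
    push_cast at h1
    rw [hT]
    linarith only [h1]
  refine ⟨w0, wq, wc, W1, u1, v1, z1, u2, v2, z2, ?_, ?_, ?_, ?_, hW1.symm, ?_, ?_, ?_, ?_, ?_⟩
  · -- w0 + 2 wq upper
    rw [← hT, ← hL]
    have h1 : T * (w0 + 2 * wq) ≤ (1 + 1 / m) * ((1 - 2 / (3 * L) - 1 / (L * Z)) * D) := by
      have h2 : (1 + 1 / (m : ℝ)) * ((1 - 2 / (3 * L) - 1 / (L * Z)) * D) =
        (1 + 1 / m) * (f * D) + 2 * ((1 + 1 / m) * (q * D)) := by rw [← hsum2]; ring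
      rw [t2, h2]
      linarith only [u3, v3]
    refine h1.trans ?_
    have h2 : 1 / (m : ℝ) ≤ 1 / (6 * L) := by
      apply one_div_le_one_div_of_le (by positivity)
      have : (6 : ℝ) ≤ 100 * (n1 * C) * Z := by nlinarith only [hnC, hZ72]
      have := mul_le_mul_of_nonneg_right this hL0.le
      linarith only [this, hmr]
    have h3 : (1 + 1 / (m : ℝ)) * (1 - 2 / (3 * L) - 1 / (L * Z)) ≤ 1 - 1 / (2 * L) := by
      have h4 : 0 ≤ 1 / (L * Z) := by positivity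
      have h5 : 0 ≤ 2 / (3 * L) := by positivity
      have h6 : 0 ≤ 1 / (m : ℝ) := by positivity
      have h7 : 1 / (2 * L) = 2 / (3 * L) - 1 / (6 * L) := by field_simp; ring
      rw [h7]
      have h8 : 1 / (m : ℝ) * (1 - 2 / (3 * L) - 1 / (L * Z)) ≤ 1 / m * 1 :=
        mul_le_mul_of_nonneg_left (by linarith only [h4, h5]) h6
      linarith only [h8, h2, h4]
    calc (1 + 1 / (m : ℝ)) * ((1 - 2 / (3 * L) - 1 / (L * Z)) * D) =
        ((1 + 1 / (m : ℝ)) * (1 - 2 / (3 * L) - 1 / (L * Z))) * D := by ring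
      _ ≤ _ := mul_le_mul_of_nonneg_right h3 hd0.le
  · -- w0 + 2 wq lower
    rw [← hT, ← hL]
    have h1 : (1 - 2 / (3 * L) - 1 / (L * Z)) * D - 3 * T ≤ T * (w0 + 2 * wq) := by
      have h2 : (1 - 2 / (3 * L) - 1 / (L * Z)) * D = f * D + 2 * (q * D) := by
        rw [← hsum2]; ring
      rw [t2, h2]
      linarith only [u4, v4]
    have h2 : (1 - 2 / (3 * L) - 1 / (L * Z)) * D = D - 2 / (3 * L) * D - 1 / (L * Z) * D := by
      ring
    have h3 : 1 / (L * Z) * D ≤ 1 / (72 * L) * D := mul_le_mul_of_nonneg_right hLZs hd0.le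
    have h4 : (1 - 1 / L) * D = D - 2 / (3 * L) * D - 4 * (D / (12 * L)) := by
      field_simp; ring
    have h5 : 1 / (72 * L) * D = D / (12 * L) / 6 := by
      field_simp; ring
    have h6 : 0 ≤ D / (12 * L) := by positivity
    linarith only [h1, h2, h3, h4, h5, h6, r4]
  · -- wc upper
    rw [← hT]
    refine z3.trans (mul_le_mul_of_nonneg_right ?_ hd0.le)
    rw [← hN]
    have : 1 / (m : ℝ) ≤ 3 / N := by
      rw [div_le_div_iff₀ hm0 hN0]; linarith only [hN, hm3r]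
    linarith only [this]
  · rw [← hT]; exact z4
  · -- W1 ≤ D / (12 L)
    rw [← hL, hW1r]
    have h1 : 2 * (C * E) + E ≤ D / (24 * L) := by
      rw [← hM0D, div_mul_eq_mul_div, div_le_div_iff₀ hLZ0 (by positivity)]
      have h2 : 24 * (2 * C + 1) * (D * L) ≤ Z * (D * L) :=
        mul_le_mul_of_nonneg_right hS2 (by positivity)
      linarith only [h2]
    have h2 : D / (12 * L) = D / (24 * L) + D / (48 * L) + D / (48 * L) := by field_simp; ring
    have h3 : E / 50 ≤ D / (48 * L) := by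
      have h4 : E ≤ D / (24 * L) := by
        have : 0 ≤ C * E := by positivity
        linarith only [this, h1]
      have h5 : D / (24 * L) = 2 * (D / (48 * L)) := by field_simp; ring
      have h6 : 0 ≤ D / (48 * L) := by positivity
      linarith only [h4, h5, h6]
    linarith only [h1, h2, h3, s4, r5]
  · -- W1 ≤ δe D
    rw [hW1r]
    have h1 : 2 * (C * E) + E ≤ δe / 14 * D := by
      rw [← hM0D]
      apply mul_le_mul_of_nonneg_right _ hd0.le
      rw [div_le_iff₀ hLZ0]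
      have h2 : δe / 14 * Z * 7 ≤ δe / 14 * Z * L :=
        mul_le_mul_of_nonneg_left hL7 (by positivity)
      linarith only [h2, hS1]
    have h2 : E ≤ δe / 14 * D := by
      have : 0 ≤ C * E := by positivity
      linarith only [this, h1]
    have h3 : 0 ≤ δe * D := by positivity
    linarith only [h1, h2, h3, s4, r6]
  · -- lower bound for W1
    rw [← hC, ← hL, ← hZ, ← hN, hW1r]
    have h1 : C * (8 * (d : ℝ) / N) ≤ 8 * E / 100 := by
      have h2 : (d : ℝ) / N ≤ n1 * D / m := by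
        rw [div_le_div_iff₀ hN0 hm0]
        have h3 : (d : ℝ) * m ≤ 2 * n1 * D * m := mul_le_mul_of_nonneg_right hd2D hm0.le
        have h4 : 0 ≤ n1 * D := by positivity
        rw [hN]
        nlinarith only [h3, h4]
      have h3 : C * (d / N) ≤ C * (n1 * D / m) := mul_le_mul_of_nonneg_left h2 (by positivity)
      have h4 : C * (8 * (d : ℝ) / N) = 8 * (C * (d / N)) := by ring
      rw [h4]
      linarith only [h3, hCm]
    have h4 : C * ((D : ℝ) / (L * Z) + 8 * (d : ℝ) / N + 1) =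
      C * E + C * (8 * (d : ℝ) / N) + C := by rw [hE]; ring
    rw [h4]
    have h5 : 2 * C + 3 * T ≤ E := by rw [hE]; exact r7
    linarith only [h1, s3, hE0, hCE, h5, hT0, hC1]
  · -- total + 3 T
    rw [← hT]
    have h5 : 2 * C + 3 * T ≤ E := by rw [hE]; exact r7
    linarith only [s3, hCE, hE0, h5, hC1]
  · -- w0
    rw [← hT, ← hN]
    have h1 : (1 - 3 / L) * D ≤ f * D := mul_le_mul_of_nonneg_right hflow hd0.le
    have h2 : 3 / L * D ≤ κ / 2 * D := mul_le_mul_of_nonneg_right h3κ hd0.le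
    have h4 : n * (D : ℝ) ≤ n * (T * wc) := by
      refine mul_le_mul_of_nonneg_left ?_ (Nat.cast_nonneg _)
      refine le_trans ?_ z4
      have h5 : 0 ≤ 1 / (2 * (2 * (m : ℝ) + 1)) := by positivity
      nlinarith only [h5, hd0]
    have h5 : T * ((w0 : ℝ) + n * wc) = T * w0 + n * (T * wc) := by ring
    rw [h5]
    have h6 : n * (D : ℝ) = n1 * D - D := by rw [hnr]; ring
    have h7 : κ / 2 * D ≤ κ / 2 * d := mul_le_mul_of_nonneg_left hDd (by positivity)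
    have h8 : κ / 4 * D ≤ κ / 4 * d := mul_le_mul_of_nonneg_left hDd (by positivity)
    have h9 : ε * d ≤ κ / 4 * d := mul_le_mul_of_nonneg_right hεκ hdd
    linarith only [h1, h2, h4, h6, h7, h8, h9, u4, r3, hD1]

end Pool.Agent.Work.MP_db9399_ot.helper99
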